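import Pool.Agent.Work.MP_af588c_co.Dg.Main

namespace Pool.Agent.Results.MP_af588c_co.Degeneracy

open Pool.Agent.Work.MP_af588c_co.TB Pool.Agent.Work.MP_af588c_co.Dg

/-- Every 3-partite `H` whose shadow graph between two parts is `d`-degenerate has density at
least `p ^ min (19 d m) (38 e(H) ^ (3/2))` in every host with `p n^3` edges; `m` is the number of
shadow pairs that meet the third part. -/
theorem result (n : ℕ) (p : ℝ) (hp : 0 < p) (E : Finset (Finset (Fin n)))
    (hE : ∀ e ∈ E, e.card = 3) (hc : (E.card : ℝ) = p * (n : ℝ) ^ 3) (hne : E.Nonempty)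
    (W : Type) [Fintype W] [DecidableEq W] (H : Finset (Finset W)) (col : W → Fin 3)
    (hH : ∀ e ∈ H, e.card = 3 ∧ e.image col = Finset.univ)
    (d : ℕ) (hd : 1 ≤ d) (hdeg : Degen H {w | col w ≠ 2} d) :
    p ^ min (19 * (d : ℝ) * ({q : W × W | col q.1 = 2 ∧ Adj H q.1 q.2}.ncard : ℝ))
        (38 * (H.card : ℝ) ^ ((3 : ℝ) / 2)) * (n : ℝ) ^ Fintype.card W
      ≤ copies (H : Set (Finset W)) E := by
  rcases min_choice (19 * (d : ℝ) * ({q : W × W | col q.1 = 2 ∧ Adj H q.1 q.2}.ncard : ℝ))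
    (38 * (H.card : ℝ) ^ ((3 : ℝ) / 2)) with h | h
  · rw [h]; exact thmA E hE hne hp hc H col hH hd hdeg
  · rw [h]; exact corA E hE hne hp hc H col hH

end Pool.Agent.Results.MP_af588c_co.Degeneracy
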