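import Pool.Agent.Work.MP_af588c_co.Dg.Dom

namespace Pool.Agent.Results.MP_af588c_co.Domination

open Pool.Agent.Work.MP_af588c_co.TB Pool.Agent.Work.MP_af588c_co.Dg

/-- If the shadow graph of a 3-partite `H` is `d`-degenerate, the density of `H` in any host is at
least the density of the complete 3-partite 3-graph with parts of size `2 d`, raised to the power
(number of non-isolated vertices of `H`) `/ d`. -/
theorem result (n : ℕ) (E : Finset (Finset (Fin n))) (hE : ∀ e ∈ E, e.card = 3)
    (hne : E.Nonempty) (W : Type) [Fintype W] [DecidableEq W] (H : Finset (Finset W))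
    (col : W → Fin 3) (hH : ∀ e ∈ H, e.card = 3 ∧ e.image col = Finset.univ)
    (d : ℕ) (hd : 1 ≤ d) (hdeg : Degen H Set.univ d) :
    ((copies (complete (2 * d)) E : ℝ) / (n : ℝ) ^ (6 * d)) ^
        (({w | ∃ e ∈ H, w ∈ e}.ncard : ℝ) / d) * (n : ℝ) ^ Fintype.card W
      ≤ copies (H : Set (Finset W)) E :=
  thmB E hE hne H col hH hd hdeg

end Pool.Agent.Results.MP_af588c_co.Domination
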