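import Pool.Agent.Work.MP_af588c_co.Dg.Dom

namespace Pool.Agent.Results.MP_af588c_co.TriangleDegenerate

open Pool.Agent.Work.MP_af588c_co.TB Pool.Agent.Work.MP_af588c_co.Dg

/-- Every 3-partite `H` with `d`-degenerate shadow graph and `v` non-isolated vertices has density
at least `p ^ (C (d + log (1/p)) v)` in the triangle 3-graph of any graph with `p n^3` triangles. -/
theorem result :
    ∃ C : ℝ, 0 < C ∧ ∀ (n : ℕ) (p : ℝ), 0 < p →
      ∀ (Γ : SimpleGraph (Fin n)) [DecidableRel Γ.Adj],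
        ((Γ.cliqueFinset 3).card : ℝ) = p * (n : ℝ) ^ 3 → (Γ.cliqueFinset 3).Nonempty →
        ∀ (W : Type) [Fintype W] [DecidableEq W] (H : Finset (Finset W)) (col : W → Fin 3),
          (∀ e ∈ H, e.card = 3 ∧ e.image col = Finset.univ) →
          ∀ d : ℕ, 1 ≤ d → Degen H Set.univ d →
          p ^ (C * ((d : ℝ) + Real.log (1 / p)) * ({w | ∃ e ∈ H, w ∈ e}.ncard : ℝ)) *
              (n : ℝ) ^ Fintype.card W
            ≤ copies (H : Set (Finset W)) (Γ.cliqueFinset 3) :=
  tri

end Pool.Agent.Results.MP_af588c_co.TriangleDegenerate
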